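import Mathlib
import Pool.Agent.H637R2.Leo.Final
import Pool.Agent.Y18.LC.Stm3

/-!
# Project LC, job LC-FAM: totally real fields of prime degree with `p` unramified

The proof of `exists_family` in `Pool.Agent.H637R2.Leo.Final` with one more claim.
-/

set_option autoImplicit false

namespace Pool.Agent.Y349.LC

open Polynomial Finset NumberField Filter Topology Pool.Agent.H637R2.Leo Pool.Agent.Y18.LC

section unram

variable {K : Type} [Field K] [NumberField K] {n : ℕ} (hn : 1 ≤ n) (a : Fin n → ℤ)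
  (ha : Function.Injective a) (θ : K) (hθ : ∏ i, (θ - (a i : K)) = 1)

include hn hθ ha in
lemma minpoly_int : minpoly ℤ (th θ (theta_integral hn a θ hθ)) = f a := by
  have h1 : IsIntegral ℤ (th θ (theta_integral hn a θ hθ)) :=
    (isIntegral_algebraMap_iff (FaithfulSMul.algebraMap_injective (𝓞 K) K)).mp
      (theta_integral hn a θ hθ)
  have h2 := minpoly.isIntegrallyClosed_eq_field_fractions ℚ K h1
  rw [th_coe, minpoly_theta hn a ha θ hθ] at h2
  exact (Polynomial.map_injective _ (algebraMap ℤ ℚ).injective_int h2).symm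

include hn hθ ha in
lemma unram (hgen : IntermediateField.adjoin ℚ {θ} = ⊤) (p : ℕ) (hp : p.Prime) (hpn : ¬ p ∣ n)
    (hpa : ∀ i, (p : ℤ) ∣ a i) : Unram K p := by
  have := Fact.mk hp
  set t : 𝓞 K := th θ (theta_integral hn a θ hθ) with ht
  have hd : aeval t (derivative (f a)) ∈ differentIdeal ℤ (𝓞 K) := by
    have h1 : Algebra.adjoin ℚ {algebraMap (𝓞 K) K t} = ⊤ := by
      rw [ht, th_coe, ← IntermediateField.adjoin_toSubalgebra_of_isAlgebraic
        (fun x _ => Algebra.IsAlgebraic.isAlgebraic x), hgen, IntermediateField.top_toSubalgebra]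
    have h2 := aeval_derivative_mem_differentIdeal ℤ ℚ K t h1
    rwa [minpoly_int hn a ha θ hθ] at h2
  have hp0 : (p : 𝓞 K) ≠ 0 := by exact_mod_cast hp.ne_zero
  have hspan : (Ideal.span {(p : ℤ)}).map (algebraMap ℤ (𝓞 K)) = Ideal.span {(p : 𝓞 K)} := by
    rw [Ideal.map_span, Set.image_singleton, map_natCast]
  have hsq : Squarefree (Ideal.span {(p : 𝓞 K)}) := by
    intro I hI
    have hmax : (Ideal.span {(p : ℤ)}).IsMaximal :=
      Int.ideal_span_isMaximal_of_prime p
    have h1 : I ^ (2 - 1) ∣ differentIdeal ℤ (𝓞 K) := by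
      refine pow_sub_one_dvd_differentIdeal_aux ℤ ℚ K (p := Ideal.span {(p : ℤ)}) I two_ne_zero ?_ ?_
      · rw [Ne, Ideal.span_singleton_eq_bot]
        exact_mod_cast hp.ne_zero
      · rw [hspan, pow_two]; exact hI
    rw [show 2 - 1 = 1 from rfl, pow_one, Ideal.dvd_iff_le] at h1
    have h2 : aeval t (derivative (f a)) ∈ I := h1 hd
    have h3 : (p : 𝓞 K) ∈ I := by
      have h4 : I ∣ Ideal.span {(p : 𝓞 K)} := (Dvd.intro _ rfl).trans hI
      exact (Ideal.dvd_iff_le.mp h4) (Ideal.mem_span_singleton_self _)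
    -- the quotient ring
    let ρ : 𝓞 K →+* 𝓞 K ⧸ I := Ideal.Quotient.mk I
    have hpz : ((p : ℕ) : 𝓞 K ⧸ I) = 0 := by
      have := Ideal.Quotient.eq_zero_iff_mem.mpr h3
      rwa [map_natCast] at this
    have haz : ∀ i, ((a i : ℤ) : 𝓞 K ⧸ I) = 0 := by
      intro i
      obtain ⟨c, hc⟩ := hpa i
      rw [hc]
      push_cast
      rw [hpz, zero_mul]
    have hf : (f a).map (Int.castRingHom (𝓞 K ⧸ I)) = X ^ n - 1 := by
      unfold f
      rw [Polynomial.map_sub, Polynomial.map_prod, Polynomial.map_one]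
      congr 1
      have h1 : ∀ i, Polynomial.map (Int.castRingHom (𝓞 K ⧸ I)) (X - C (a i)) = X := by
        intro i
        rw [Polynomial.map_sub, map_X, map_C, eq_intCast, haz i, C_0, sub_zero]
      rw [Finset.prod_congr rfl fun i _ => h1 i, Finset.prod_const, Finset.card_univ,
        Fintype.card_fin]
    have hev : ∀ g : ℤ[X], ρ (aeval t g) = (g.map (Int.castRingHom (𝓞 K ⧸ I))).eval (ρ t) := by
      intro g
      rw [eval_map, aeval_def, hom_eval₂]
      congr 1
    have h5 : ρ (aeval t (f a)) = 0 := by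
      have h6 : aeval t (f a) = 0 := by
        rw [← minpoly_int hn a ha θ hθ]
        exact minpoly.aeval ℤ t
      rw [h6, map_zero]
    have h6 : ρ (aeval t (derivative (f a))) = 0 := Ideal.Quotient.eq_zero_iff_mem.mpr h2
    rw [hev, hf, eval_sub, eval_pow, eval_X, eval_one, sub_eq_zero] at h5
    rw [hev, ← derivative_map, hf, derivative_sub, derivative_one, sub_zero, derivative_X_pow,
      eval_mul, eval_pow, eval_X, eval_C] at h6
    have h7 : ((n : ℕ) : 𝓞 K ⧸ I) = 0 := by
      have h8 : (n : 𝓞 K ⧸ I) * ρ t ^ (n - 1) * ρ t = 0 := by rw [h6, zero_mul]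
      rw [mul_assoc, ← pow_succ, Nat.sub_add_cancel hn, h5, mul_one] at h8
      exact h8
    have hcop : Nat.Coprime p n := (Nat.Prime.coprime_iff_not_dvd hp).mpr hpn
    obtain ⟨u, v, huv⟩ := Nat.isCoprime_iff_coprime.mpr hcop
    have h9 : (1 : 𝓞 K ⧸ I) = 0 := by
      have h10 := congrArg (Int.castRingHom (𝓞 K ⧸ I)) huv
      rw [map_add, map_mul, map_mul, map_natCast, map_natCast, hpz, h7, mul_zero, mul_zero,
        add_zero, map_one] at h10
      exact h10.symm
    rw [Ideal.isUnit_iff, Ideal.eq_top_iff_one]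
    apply Ideal.Quotient.eq_zero_iff_mem.mp
    rw [map_one, h9]
  have hrad := hsq.isRadical
  intro x hx
  obtain ⟨m, hm⟩ := hx
  have h1 : Ideal.span {(p : 𝓞 K)} ∣ Ideal.span {x} ^ m := by
    rw [Ideal.dvd_iff_le, Ideal.span_singleton_pow, Ideal.span_singleton_le_iff_mem]
    exact hm
  have h2 := hrad m _ h1
  rwa [Ideal.dvd_iff_le, Ideal.span_singleton_le_iff_mem] at h2

end unram

/-- The family of `exists_family`, with the additional claim that the primes of `S` prime to `n` are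
unramified. -/
theorem exists_family' (n : ℕ) (hn : 2 ≤ n) (S : Finset ℕ) (hS : ∀ p ∈ S, p.Prime)
    (ι : Type) [Fintype ι] (L : ι → Type) [∀ i, Field (L i)] [∀ i, NumberField (L i)] :
    ∃ (K : Type) (_ : Field K) (_ : NumberField K), Module.finrank ℚ K = n ∧ IsTotallyReal K ∧
      (3 ≤ n → ¬ IsGalois ℚ K) ∧ (∀ i, IsEmpty (K ≃+* L i)) ∧
      (∀ p ∈ S, ∀ [Fact p.Prime], Leopoldt K p) ∧ ∀ p ∈ S, ¬ p ∣ n → Unram K p := by
  classical
  set q0 := (n - 1).minFac with hq0
  have hq0pos : 0 < q0 := Nat.minFac_pos _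
  set B := (2 * (q0 * ∏ p ∈ S, p)) ^ n with hB
  have hB0 : B ≠ 0 := by
    apply pow_ne_zero
    exact mul_ne_zero two_ne_zero
      (mul_ne_zero hq0pos.ne' (Finset.prod_ne_zero_iff.2 fun p hp => (hS p hp).ne_zero))
  choose q hq hqB hhom using fun i => exists_hom (L i) B hB0
  set T : Finset ℕ := Finset.univ.image q with hT
  have hTp : ∀ r ∈ T, r.Prime := by
    intro r hr
    obtain ⟨i, -, rfl⟩ := Finset.mem_image.1 hr
    exact hq i
  have hTB : ∀ r ∈ T, ¬ r ∣ B := by
    intro r hr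
    obtain ⟨i, -, rfl⟩ := Finset.mem_image.1 hr
    exact hqB i
  -- residues without roots
  have hres : ∀ r : ℕ, ∃ c : ZMod r, r.Prime → ∀ x : ZMod r, x ^ (n - 1) * (x - c) ≠ 1 := by
    intro r
    by_cases hr : r.Prime
    · obtain ⟨c, hc⟩ := exists_noroot r n hr hn
      exact ⟨c, fun _ => hc⟩
    · exact ⟨0, fun h => absurd h hr⟩
  choose c hc using hres
  obtain ⟨c', hc'⟩ := Nat.chineseRemainderOfFinset (fun r => (c r * (B : ZMod r)⁻¹).val) (fun r => r) T
    (fun r hr => (hTp r hr).ne_zero)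
    (fun r hr s hs hrs => (Nat.coprime_primes (hTp r hr) (hTp s hs)).2 hrs)
  have hcc : ∀ r ∈ T, ((B * c' : ℕ) : ZMod r) = c r := by
    intro r hr
    have := Fact.mk (hTp r hr)
    have h1 := (ZMod.natCast_eq_natCast_iff _ _ _).2 (hc' r hr)
    rw [ZMod.natCast_zmod_val] at h1
    have hBr : (B : ZMod r) ≠ 0 := by
      rw [Ne, ZMod.natCast_eq_zero_iff]
      exact hTB r hr
    push_cast
    rw [h1]
    field_simp
  set W := B * ∏ r ∈ T, r with hW
  have hW0 : 0 < W := by
    apply Nat.pos_of_ne_zero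
    exact mul_ne_zero hB0 (Finset.prod_ne_zero_iff.2 fun p hp => (hTp p hp).ne_zero)
  set a : Fin n → ℤ := fun i => ((i * W + (if (i : ℕ) = n - 1 then B * c' else 0) : ℕ) : ℤ) with ha
  have hainj : Function.Injective a := by
    intro i j hij
    rw [ha] at hij
    simp only at hij
    have h1 : (i : ℕ) * W + (if (i : ℕ) = n - 1 then B * c' else 0)
      = (j : ℕ) * W + (if (j : ℕ) = n - 1 then B * c' else 0) := by exact_mod_cast hij
    apply Fin.ext
    rcases lt_trichotomy (i : ℕ) (j : ℕ) with h | h | h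
    · exfalso
      have h2 : (i : ℕ) * W < (j : ℕ) * W := Nat.mul_lt_mul_of_pos_right h hW0
      rw [if_neg (by have := j.2; omega)] at h1
      omega
    · exact h
    · exfalso
      have h2 : (j : ℕ) * W < (i : ℕ) * W := Nat.mul_lt_mul_of_pos_right h hW0
      rw [if_neg (c := (j : ℕ) = n - 1) (by have := i.2; omega)] at h1
      omega
  have hdvd : ∀ i, (B : ℤ) ∣ a i := by
    intro i
    rw [ha]
    simp only
    have h1 : B ∣ (i : ℕ) * W + (if (i : ℕ) = n - 1 then B * c' else 0) := by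
      apply dvd_add
      · exact Dvd.dvd.mul_left (Dvd.intro _ rfl) _
      · split_ifs
        · exact Dvd.intro _ rfl
        · exact dvd_zero _
    exact_mod_cast h1
  have hn1 : 1 ≤ n := by omega
  obtain ⟨K, hK1, hK2, θ, hθ, hgen⟩ := exists_field hn1 a hainj
  refine ⟨K, hK1, hK2, finrank_eq hn1 a hainj θ hθ hgen, ?_, ?_, ?_, ?_, ?_⟩
  · -- totally real: use the prime `2`
    have h2 : Fact (Nat.Prime 2) := ⟨Nat.prime_two⟩
    refine (explicit_family 2 n n hn1 (Nat.lt_two_pow_self) a hainj (fun i j => ?_) K θ hθ hgen).2.1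
    have h1 : 2 ^ n ∣ B := by
      rw [hB]
      exact pow_dvd_pow_of_dvd (Dvd.intro _ rfl) _
    have h2 : ((2 : ℕ) : ℤ) ^ n ∣ (B : ℤ) := by exact_mod_cast h1
    exact dvd_sub (dvd_trans h2 (hdvd i)) (dvd_trans h2 (hdvd j))
  · intro hn3
    have hq0p : q0.Prime := Nat.minFac_prime (by omega)
    refine not_galois hn3 a hainj θ hθ hgen q0 hq0p (Nat.minFac_dvd _) fun i => ?_
    refine dvd_trans ?_ (hdvd i)
    rw [hB]
    exact_mod_cast Dvd.dvd.trans (Dvd.dvd.mul_left (Dvd.intro _ rfl) _) (dvd_pow_self _ (by omega))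
  · intro i
    refine ⟨fun e => ?_⟩
    obtain ⟨ψ⟩ := hhom i
    have hr : q i ∈ T := Finset.mem_image_of_mem _ (Finset.mem_univ i)
    have := Fact.mk (hq i)
    let ρ : 𝓞 K →+* ZMod (q i) := ψ.comp (RingOfIntegers.mapRingEquiv e).toRingHom
    have hθint : IsIntegral ℤ θ := theta_integral hn1 a θ hθ
    set x := ρ (th θ hθint) with hx
    have h1 : ∏ i, (th θ hθint - (a i : 𝓞 K)) = 1 := by
      apply FaithfulSMul.algebraMap_injective (𝓞 K) K
      rw [map_prod, map_one, ← hθ]
      refine Finset.prod_congr rfl fun i _ => ?_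
      rw [map_sub, map_intCast, th_coe]
    have h2 := congrArg ρ h1
    rw [map_prod, map_one] at h2
    have h3 : ∀ j : Fin n, ρ (th θ hθint - (a j : 𝓞 K)) = if (j : ℕ) = n - 1 then x - c (q i) else x := by
      intro j
      rw [map_sub, map_intCast, ← hx, ha]
      simp only
      have h4 : ((W : ℕ) : ZMod (q i)) = 0 := by
        rw [ZMod.natCast_eq_zero_iff, hW]
        exact Dvd.dvd.mul_left (Finset.dvd_prod_of_mem (fun r => r) hr) _
      split_ifs with h
      · rw [Int.cast_natCast, Nat.cast_add, Nat.cast_mul, h4, mul_zero, zero_add, hcc _ hr]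
      · rw [Int.cast_natCast, Nat.cast_add, Nat.cast_mul, h4]
        simp
    rw [Finset.prod_congr rfl fun j _ => h3 j] at h2
    have h5 : ∏ j : Fin n, (if (j : ℕ) = n - 1 then x - c (q i) else x) = x ^ (n - 1) * (x - c (q i)) := by
      obtain ⟨m, rfl⟩ : ∃ m, n = m + 1 := ⟨n - 1, by omega⟩
      rw [Fin.prod_univ_castSucc]
      simp only [Fin.val_castSucc, Fin.val_last, Nat.add_sub_cancel, if_true]
      congr 1
      rw [Finset.prod_congr rfl fun j _ => if_neg (by have := j.2; omega)]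
      simp
    rw [h5] at h2
    exact hc (q i) (hq i) x h2
  · intro p hpS hp
    refine (explicit_family p n n hn1 (Nat.lt_pow_self hp.out.one_lt) a hainj (fun i j => ?_) K θ hθ hgen).2.2
    have h1 : p ^ n ∣ B := by
      rw [hB]
      exact pow_dvd_pow_of_dvd
        (Dvd.dvd.mul_left (Dvd.dvd.mul_left (Finset.dvd_prod_of_mem (fun r => r) hpS) _) _) _
    have h2 : (p : ℤ) ^ n ∣ (B : ℤ) := by exact_mod_cast h1
    exact dvd_sub (dvd_trans h2 (hdvd i)) (dvd_trans h2 (hdvd j))
  · intro p hpS hpn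
    refine unram hn1 a hainj θ hθ hgen p (hS p hpS) hpn fun i => dvd_trans ?_ (hdvd i)
    have h1 : p ∣ B := by
      rw [hB]
      exact dvd_pow (Dvd.dvd.mul_left (Dvd.dvd.mul_left (Finset.dvd_prod_of_mem (fun r => r) hpS) _) _)
        (by omega)
    exact_mod_cast h1

/-- LC-FAM -/
theorem fam : Pool.Agent.Y18.LC.FAM := by
  intro n p hp hn hn3 hpn ι _ L _ _
  obtain ⟨K, h1, h2, h3, h4, h5, h6, h7, h8⟩ := exists_family' n (by omega) {p}
    (fun q hq => by rw [Finset.mem_singleton.mp hq]; exact hp.out) ι L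
  refine ⟨K, h1, h2, h3, h4, h5 hn3, h6, ?_, h7 p (Finset.mem_singleton_self p)⟩
  apply h8 p (Finset.mem_singleton_self p)
  intro h
  exact hpn ((Nat.prime_dvd_prime_iff_eq hp.out hn).mp h)

end Pool.Agent.Y349.LC
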